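import Pool.Agent.NH87.HC.Main

/-!
# Heavy directed cycles: the special classes
-/

set_option autoImplicit false
set_option linter.unusedSectionVars false

open Finset

namespace Pool.Agent.NH87.HC

variable {V : Type} [Fintype V] [Nonempty V]

/-- the sum over the symmetric neighbours is bounded by a directed cycle -/
theorem sym_heavy (w : V → V → ℝ) (h0 : ∀ u v, 0 ≤ w u v) (hl : ∀ v, w v v = 0) (d : ℝ)
    (hd : 0 < d) (N : V → Finset V) (hN : ∀ v u, u ∈ N v ↔ 0 < w v u ∧ 0 < w u v)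
    (hs : ∀ v, d ≤ ∑ u ∈ N v, (w v u + w u v)) : ∃ c, d / 2 < c ∧ Heavy w c := by
  classical
  let R : V → V → Prop := fun u v => 0 < w u v ∧ 0 < w v u
  have hR : ∀ {u v}, R u v → R v u := fun h => ⟨h.2, h.1⟩
  have hirr : ∀ v, ¬ R v v := fun v h => by
    have := h.1
    rw [hl] at this
    exact lt_irrefl _ this
  let s : V → V → ℝ := fun u v => w u v + w v u
  have hss : ∀ u v, s u v = s v u := fun u v => add_comm _ _
  have hs0 : ∀ u v, 0 ≤ s u v := fun u v => add_nonneg (h0 _ _) (h0 _ _)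
  have hspos : ∀ u v, R u v → 0 < s u v := fun u v h => add_pos h.1 h.2
  obtain ⟨m, f, hf, harc, hmax⟩ := heaviest_path R s
  have hon : ∀ u, R (f m) u → ∃ i, i < m ∧ f i = u := by
    intro u hu
    by_contra hcon
    push Not at hcon
    have hne : ∀ i, i ≤ m → f i ≠ u := by
      intro i hi h
      rcases Nat.lt_or_eq_of_le hi with h1 | h1
      · exact hcon i h1 h
      · rw [h1] at h; rw [← h] at hu; exact hirr _ hu
    have h5 := hmax (m + 1) (fun i => if i = m + 1 then u else f i) (by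
      intro i j hi hj hij
      by_cases h1 : i = m + 1 <;> by_cases h2 : j = m + 1
      · omega
      · simp only [h1, h2, if_true, if_false] at hij
        exact absurd hij.symm (hne j (by omega))
      · simp only [h1, h2, if_true, if_false] at hij
        exact absurd hij (hne i (by omega))
      · simp only [h1, h2, if_false] at hij
        exact hf i j (by omega) (by omega) hij) (by
      intro i hi
      have h1 : i ≠ m + 1 := by omega
      by_cases h2 : i + 1 = m + 1
      · have : i = m := by omega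
        simp only [h1, h2, if_true, if_false]
        rw [this]; exact hu
      · simp only [h1, h2, if_false]
        exact harc i (by omega))
    rw [sum_range_succ] at h5
    have e1 : ∑ i ∈ range m, s (if i = m + 1 then u else f i) (if i + 1 = m + 1 then u else f (i + 1)) =
        ∑ i ∈ range m, s (f i) (f (i + 1)) := by
      refine sum_congr rfl fun i hi => ?_
      have h6 := mem_range.1 hi
      rw [if_neg (by omega), if_neg (by omega)]
    rw [e1, if_neg (by omega), if_pos rfl] at h5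
    have := hspos _ _ hu
    linarith
  have hex : ∃ u, R (f m) u := by
    by_contra hcon
    push Not at hcon
    have h1 : N (f m) = ∅ := by
      rw [Finset.eq_empty_iff_forall_notMem]
      intro u hu
      exact hcon u ((hN _ _).1 hu)
    have h2 := hs (f m)
    rw [h1, sum_empty] at h2
    linarith
  obtain ⟨a, k, hm, hcl, ha⟩ := first_nbr hon hex
  -- rotations
  have hrot : ∀ i, a ≤ i → i < m → R (f m) (f i) → s (f m) (f i) ≤ s (f i) (f (i + 1)) := by
    intro i _ hi hi'
    obtain ⟨n, hn⟩ : ∃ n, m = i + 1 + n := ⟨m - i - 1, by omega⟩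
    have h5 := hmax m (fun t => if t ≤ i then f t else f (m + i + 1 - t)) (by
      intro x y hx hy hxy
      by_cases h1 : x ≤ i <;> by_cases h2 : y ≤ i
      · simp only [h1, h2, if_true] at hxy
        exact hf x y (by omega) (by omega) hxy
      · simp only [h1, h2, if_true, if_false] at hxy
        have := hf x (m + i + 1 - y) (by omega) (by omega) hxy
        omega
      · simp only [h1, h2, if_true, if_false] at hxy
        have := hf (m + i + 1 - x) y (by omega) (by omega) hxy
        omega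
      · simp only [h1, h2, if_false] at hxy
        have := hf (m + i + 1 - x) (m + i + 1 - y) (by omega) (by omega) hxy
        omega) (by
      intro t ht
      by_cases h1 : t < i
      · have h2 : t ≤ i := h1.le
        have h3 : t + 1 ≤ i := h1
        simp only [h2, h3, if_true]
        exact harc t ht
      · by_cases h2 : t = i
        · subst h2
          have h3 : ¬ t + 1 ≤ t := by omega
          have h4 : m + t + 1 - (t + 1) = m := by omega
          simp only [le_refl, if_true, h3, if_false, h4]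
          exact hR hi'
        · have h3 : ¬ t ≤ i := by omega
          have h4 : ¬ t + 1 ≤ i := by omega
          simp only [h3, h4, if_false]
          have h6 := harc (m + i - t) (by omega)
          have h7 : m + i + 1 - t = m + i - t + 1 := by omega
          have h8 : m + i + 1 - (t + 1) = m + i - t := by omega
          rw [h7, h8]
          exact hR h6)
    have e0 : ∀ F : ℕ → ℝ, ∑ t ∈ range m, F t =
        ∑ t ∈ range i, F t + F i + ∑ y ∈ range n, F (i + 1 + y) := by
      intro F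
      rw [hn, Finset.sum_range_add, Finset.sum_range_succ]
    rw [e0, e0] at h5
    have e1 : ∑ t ∈ range i, s (if t ≤ i then f t else f (m + i + 1 - t))
        (if t + 1 ≤ i then f (t + 1) else f (m + i + 1 - (t + 1))) =
        ∑ t ∈ range i, s (f t) (f (t + 1)) := by
      refine sum_congr rfl fun t ht => ?_
      have h6 := mem_range.1 ht
      rw [if_pos (by omega), if_pos (by omega)]
    have e2 : s (if i ≤ i then f i else f (m + i + 1 - i))
        (if i + 1 ≤ i then f (i + 1) else f (m + i + 1 - (i + 1))) = s (f i) (f m) := by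
      rw [if_pos le_rfl, if_neg (by omega)]
      have h4 : m + i + 1 - (i + 1) = m := by omega
      rw [h4]
    have e3 : ∑ y ∈ range n, s (if i + 1 + y ≤ i then f (i + 1 + y) else f (m + i + 1 - (i + 1 + y)))
        (if i + 1 + y + 1 ≤ i then f (i + 1 + y + 1) else f (m + i + 1 - (i + 1 + y + 1))) =
        ∑ y ∈ range n, s (f (i + 1 + y)) (f (i + 1 + y + 1)) := by
      rw [← Finset.sum_range_reflect (fun y => s (f (i + 1 + y)) (f (i + 1 + y + 1)))]
      refine sum_congr rfl fun y hy => ?_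
      have h6 := mem_range.1 hy
      rw [if_neg (by omega), if_neg (by omega), hss]
      have h7 : m + i + 1 - (i + 1 + y + 1) = i + 1 + (n - 1 - y) := by omega
      have h8 : m + i + 1 - (i + 1 + y) = i + 1 + (n - 1 - y) + 1 := by omega
      rw [h7, h8]
    rw [e1, e2, e3] at h5
    rw [hss]
    linarith
  have h1 : d ≤ ∑ i ∈ Ico a m, s (f i) (f (i + 1)) :=
    (hs (f m)).trans (sum_nbr hf hon ha (N (f m)) (hN (f m)) (fun u => s (f m) u)
      (fun i => s (f i) (f (i + 1))) hrot fun i _ _ => hs0 _ _)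
  have h2 : ∑ i ∈ Ico a m, s (f i) (f (i + 1)) =
      ∑ y ∈ range (k + 1), s (f (a + y)) (f (a + y + 1)) := by
    rw [Finset.sum_Ico_eq_sum_range]
    have : m - a = k + 1 := by omega
    rw [this]
  obtain ⟨g1, g1a, g1b, g1c⟩ := fwd w hm hf (fun i hi => (harc i hi).1) hcl.1
  obtain ⟨g2, g2a, g2b, g2c⟩ := bwd w hm hf (fun i hi => (harc i hi).2) hcl.2
  have h3 : ∑ i, w (g1 i) (g1 (finRotate (k + 2) i)) + ∑ i, w (g2 i) (g2 (finRotate (k + 2) i)) =
      ∑ y ∈ range (k + 1), s (f (a + y)) (f (a + y + 1)) + s (f m) (f a) := by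
    rw [g1c, g2c]
    show _ = ∑ y ∈ range (k + 1), (w (f (a + y)) (f (a + y + 1)) + w (f (a + y + 1)) (f (a + y))) +
      (w (f m) (f a) + w (f a) (f m))
    rw [sum_add_distrib]
    ring
  have h4 := hspos _ _ hcl
  rw [← h2] at h3
  rcases le_total (∑ i, w (g1 i) (g1 (finRotate (k + 2) i)))
    (∑ i, w (g2 i) (g2 (finRotate (k + 2) i))) with h | h
  · exact ⟨_, by linarith, k, g2, g2a, g2b, le_rfl⟩
  · exact ⟨_, by linarith, k, g1, g1a, g1b, le_rfl⟩

/-- lower bounds at the tails -/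
theorem tail_heavy (w : V → V → ℝ) (hl : ∀ v, w v v = 0) (φ : V → ℝ) (hφ0 : ∀ u, 0 ≤ φ u)
    (hφ : ∀ u v, 0 < w u v → φ u ≤ w u v) (d : ℝ) (N : V → Finset V)
    (hN : ∀ v u, u ∈ N v ↔ 0 < w u v) (hne : ∀ v, ∃ u, 0 < w u v)
    (hs : ∀ v, d ≤ φ v + ∑ u ∈ N v, φ u) : Heavy w d := by
  classical
  let R : V → V → Prop := fun v u => 0 < w u v
  have hirr : ∀ v, ¬ R v v := fun v h => by
    have h' : 0 < w v v := h
    rw [hl] at h'
    exact lt_irrefl _ h'
  obtain ⟨m, f, hf, harc, hon⟩ := max_path R hirr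
  obtain ⟨a, k, hm, hcl, ha⟩ := first_nbr hon (hne (f m))
  obtain ⟨g, g1, g2, g3⟩ := bwd w hm hf harc hcl
  refine ⟨k, g, g1, g2, ?_⟩
  rw [g3]
  have h1 : ∑ u ∈ N (f m), φ u ≤ ∑ i ∈ Ico a m, φ (f i) :=
    sum_nbr hf hon ha (N (f m)) (hN (f m)) φ (fun i => φ (f i)) (fun i _ _ _ => le_rfl)
      fun i _ _ => hφ0 _
  have h2 : ∑ i ∈ Ico a m, φ (f i) = ∑ y ∈ range (k + 1), φ (f (a + y)) := by
    rw [Finset.sum_Ico_eq_sum_range]
    have : m - a = k + 1 := by omega
    rw [this]
  have h3 : ∑ y ∈ range (k + 1), φ (f (a + y + 1)) ≤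
      ∑ y ∈ range (k + 1), w (f (a + y + 1)) (f (a + y)) := by
    refine sum_le_sum fun y hy => ?_
    have := mem_range.1 hy
    exact hφ _ _ (harc (a + y) (by omega))
  have h4 : ∑ y ∈ range (k + 1), φ (f (a + y + 1)) + φ (f a) =
      ∑ y ∈ range (k + 1), φ (f (a + y)) + φ (f m) := by
    have h5 := Finset.sum_range_succ (fun y => φ (f (a + y))) (k + 1)
    have h6 := Finset.sum_range_succ' (fun y => φ (f (a + y))) (k + 1)
    rw [hm]
    rw [h5] at h6
    have h7 : φ (f (a + 0)) = φ (f a) := rfl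
    rw [h7] at h6
    rw [h6]
    rfl
  have h8 := hφ _ _ hcl
  have h9 := hs (f m)
  linarith

/-- lower bounds at the heads -/
theorem head_heavy (w : V → V → ℝ) (hl : ∀ v, w v v = 0) (φ : V → ℝ) (hφ0 : ∀ u, 0 ≤ φ u)
    (hφ : ∀ u v, 0 < w v u → φ u ≤ w v u) (d : ℝ) (N : V → Finset V)
    (hN : ∀ v u, u ∈ N v ↔ 0 < w v u) (hne : ∀ v, ∃ u, 0 < w v u)
    (hs : ∀ v, d ≤ φ v + ∑ u ∈ N v, φ u) : Heavy w d := by
  classical
  let R : V → V → Prop := fun v u => 0 < w v u
  have hirr : ∀ v, ¬ R v v := fun v h => by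
    have h' : 0 < w v v := h
    rw [hl] at h'
    exact lt_irrefl _ h'
  obtain ⟨m, f, hf, harc, hon⟩ := max_path R hirr
  obtain ⟨a, k, hm, hcl, ha⟩ := first_nbr hon (hne (f m))
  obtain ⟨g, g1, g2, g3⟩ := fwd w hm hf harc hcl
  refine ⟨k, g, g1, g2, ?_⟩
  rw [g3]
  have h1 : ∑ u ∈ N (f m), φ u ≤ ∑ i ∈ Ico a m, φ (f i) :=
    sum_nbr hf hon ha (N (f m)) (hN (f m)) φ (fun i => φ (f i)) (fun i _ _ _ => le_rfl)
      fun i _ _ => hφ0 _
  have h2 : ∑ i ∈ Ico a m, φ (f i) = ∑ y ∈ range (k + 1), φ (f (a + y)) := by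
    rw [Finset.sum_Ico_eq_sum_range]
    have : m - a = k + 1 := by omega
    rw [this]
  have h3 : ∑ y ∈ range (k + 1), φ (f (a + y + 1)) ≤
      ∑ y ∈ range (k + 1), w (f (a + y)) (f (a + y + 1)) := by
    refine sum_le_sum fun y hy => ?_
    have := mem_range.1 hy
    exact hφ _ _ (harc (a + y) (by omega))
  have h4 : ∑ y ∈ range (k + 1), φ (f (a + y + 1)) + φ (f a) =
      ∑ y ∈ range (k + 1), φ (f (a + y)) + φ (f m) := by
    have h5 := Finset.sum_range_succ (fun y => φ (f (a + y))) (k + 1)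
    have h6 := Finset.sum_range_succ' (fun y => φ (f (a + y))) (k + 1)
    rw [hm]
    rw [h5] at h6
    have h7 : φ (f (a + 0)) = φ (f a) := rfl
    rw [h7] at h6
    rw [h6]
    rfl
  have h8 := hφ _ _ hcl
  have h9 := hs (f m)
  linarith

theorem n_pos (w : V → V → ℝ) (hl : ∀ v, w v v = 0) (hw : ∀ v, 1 ≤ ∑ u, w v u) :
    (0 : ℝ) < Fintype.card V - 1 := by
  classical
  obtain ⟨v⟩ := (inferInstance : Nonempty V)
  by_contra hn
  have h1 : Fintype.card V ≤ 1 := by
    have h2 : (Fintype.card V : ℝ) ≤ 1 := by linarith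
    exact_mod_cast h2
  have h2 : Subsingleton V := Fintype.card_le_one_iff_subsingleton.1 h1
  have h3 : ∑ u, w v u = 0 := sum_eq_zero fun u _ => by
    rw [Subsingleton.elim u v, hl]
  have h4 := hw v
  rw [h3] at h4
  linarith

theorem le_max (w : V → V → ℝ) (hl : ∀ v, w v v = 0)
    (hw : ∀ v, 1 ≤ ∑ u, w v u) (M : V → ℝ) (hM : ∀ u v, w u v ≤ M u) (v : V) :
    1 / ((Fintype.card V : ℝ) - 1) ≤ M v := by
  classical
  have h1 := n_pos w hl hw
  rw [div_le_iff₀ h1]
  have h2 : ∑ u, w v u = ∑ u ∈ univ.erase v, w v u := by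
    rw [← Finset.add_sum_erase univ _ (mem_univ v), hl, zero_add]
  have h3 : ∑ u ∈ univ.erase v, w v u ≤ ((univ.erase v).card : ℝ) * M v := by
    rw [← nsmul_eq_mul]
    exact Finset.sum_le_card_nsmul _ _ _ fun u _ => hM v u
  have h4 : ((univ.erase v).card : ℝ) = Fintype.card V - 1 := by
    rw [card_erase_of_mem (mem_univ v), Finset.card_univ, Nat.cast_sub Fintype.card_pos]
    push_cast
    rfl
  rw [h4] at h3
  have h5 := hw v
  linarith

/-- outgoing weights of comparable size -/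
theorem ratio_tail (w : V → V → ℝ) (h0 : ∀ u v, 0 ≤ w u v) (hl : ∀ v, w v v = 0) (r : ℝ)
    (hr : 0 < r) (hrat : ∀ u v v', 0 < w u v → 0 < w u v' → r * w u v' ≤ w u v)
    (hin : ∀ v, 1 ≤ ∑ u, w u v) (hout : ∀ v, 1 ≤ ∑ u, w v u) :
    Heavy w (r * Fintype.card V / (Fintype.card V - 1)) := by
  classical
  obtain ⟨M, hM1, hM2⟩ : ∃ M : V → ℝ, (∀ u v, w u v ≤ M u) ∧ ∀ u, ∃ v, M u = w u v := by
    refine ⟨fun u => univ.sup' univ_nonempty (w u), fun u v => le_sup' (w u) (mem_univ v), fun u => ?_⟩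
    obtain ⟨v, _, hv⟩ := exists_mem_eq_sup' univ_nonempty (w u)
    exact ⟨v, hv⟩
  have hM0 : ∀ u, 0 ≤ M u := fun u => (h0 u u).trans (hM1 u u)
  have hn := n_pos w hl hout
  refine tail_heavy w hl (fun u => r * M u) (fun u => mul_nonneg hr.le (hM0 u)) ?_ _
    (fun v => univ.filter fun u => 0 < w u v) (fun v u => by simp) ?_ ?_
  · intro u v huv
    obtain ⟨v', hv'⟩ := hM2 u
    show _ ≤ _
    rw [hv']
    refine hrat u v v' huv ?_
    rw [← hv']
    exact huv.trans_le (hM1 u v)
  · intro v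
    by_contra hcon
    push Not at hcon
    have := hin v
    have h3 : ∑ u, w u v ≤ 0 := sum_nonpos fun u _ => hcon u
    linarith
  · intro v
    have h1 : ∑ u, w u v = ∑ u ∈ univ.filter (fun u => 0 < w u v), w u v := by
      symm
      refine sum_subset (subset_univ _) fun u _ hu => ?_
      rw [mem_filter] at hu
      push Not at hu
      exact le_antisymm (hu (mem_univ _)) (h0 _ _)
    have h2 : r * ∑ u ∈ univ.filter (fun u => 0 < w u v), w u v ≤
        ∑ u ∈ univ.filter (fun u => 0 < w u v), r * M u := by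
      rw [mul_sum]
      exact sum_le_sum fun u _ => mul_le_mul_of_nonneg_left (hM1 u v) hr.le
    have h3 := hin v
    rw [h1] at h3
    have h4 : r * 1 ≤ r * ∑ u ∈ univ.filter (fun u => 0 < w u v), w u v :=
      mul_le_mul_of_nonneg_left h3 hr.le
    have h5 : r * (1 / ((Fintype.card V : ℝ) - 1)) ≤ r * M v :=
      mul_le_mul_of_nonneg_left (le_max w hl hout M hM1 v) hr.le
    have h6 : r * Fintype.card V / (Fintype.card V - 1) =
        r * 1 + r * (1 / ((Fintype.card V : ℝ) - 1)) := by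
      field_simp
      ring
    rw [h6]
    show _ ≤ _
    linarith

/-- incoming weights of comparable size -/
theorem ratio_head (w : V → V → ℝ) (h0 : ∀ u v, 0 ≤ w u v) (hl : ∀ v, w v v = 0) (r : ℝ)
    (hr : 0 < r) (hrat : ∀ u v v', 0 < w v u → 0 < w v' u → r * w v' u ≤ w v u)
    (hin : ∀ v, 1 ≤ ∑ u, w u v) (hout : ∀ v, 1 ≤ ∑ u, w v u) :
    Heavy w (r * Fintype.card V / (Fintype.card V - 1)) := by
  classical
  obtain ⟨M, hM1, hM2⟩ : ∃ M : V → ℝ, (∀ u v, w v u ≤ M u) ∧ ∀ u, ∃ v, M u = w v u := by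
    refine ⟨fun u => univ.sup' univ_nonempty fun v => w v u, fun u v =>
      le_sup' (fun v => w v u) (mem_univ v), fun u => ?_⟩
    obtain ⟨v, _, hv⟩ := exists_mem_eq_sup' univ_nonempty fun v => w v u
    exact ⟨v, hv⟩
  have hM0 : ∀ u, 0 ≤ M u := fun u => (h0 u u).trans (hM1 u u)
  have hn := n_pos w hl hout
  refine head_heavy w hl (fun u => r * M u) (fun u => mul_nonneg hr.le (hM0 u)) ?_ _
    (fun v => univ.filter fun u => 0 < w v u) (fun v u => by simp) ?_ ?_
  · intro u v huv
    obtain ⟨v', hv'⟩ := hM2 u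
    show _ ≤ _
    rw [hv']
    refine hrat u v v' huv ?_
    rw [← hv']
    exact huv.trans_le (hM1 u v)
  · intro v
    by_contra hcon
    push Not at hcon
    have := hout v
    have h3 : ∑ u, w v u ≤ 0 := sum_nonpos fun u _ => hcon u
    linarith
  · intro v
    have h1 : ∑ u, w v u = ∑ u ∈ univ.filter (fun u => 0 < w v u), w v u := by
      symm
      refine sum_subset (subset_univ _) fun u _ hu => ?_
      rw [mem_filter] at hu
      push Not at hu
      exact le_antisymm (hu (mem_univ _)) (h0 _ _)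
    have h2 : r * ∑ u ∈ univ.filter (fun u => 0 < w v u), w v u ≤
        ∑ u ∈ univ.filter (fun u => 0 < w v u), r * M u := by
      rw [mul_sum]
      exact sum_le_sum fun u _ => mul_le_mul_of_nonneg_left (hM1 u v) hr.le
    have h3 := hout v
    rw [h1] at h3
    have h4 : r * 1 ≤ r * ∑ u ∈ univ.filter (fun u => 0 < w v u), w v u :=
      mul_le_mul_of_nonneg_left h3 hr.le
    have h7 := le_max (fun a b => w b a) hl hin M (fun a b => hM1 a b) v
    have h5 : r * (1 / ((Fintype.card V : ℝ) - 1)) ≤ r * M v :=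
      mul_le_mul_of_nonneg_left h7 hr.le
    have h6 : r * Fintype.card V / (Fintype.card V - 1) =
        r * 1 + r * (1 / ((Fintype.card V : ℝ) - 1)) := by
      field_simp
      ring
    rw [h6]
    show _ ≤ _
    linarith

/-- out-degree at most the girth -/
theorem girth_out (w : V → V → ℝ) (h0 : ∀ u v, 0 ≤ w u v) (hl : ∀ v, w v v = 0) (g : ℕ)
    (hg : ∀ (k : ℕ) (f : Fin (k + 2) → V), Function.Injective f →
      (∀ i, 0 < w (f i) (f (finRotate (k + 2) i))) → g ≤ k + 2)
    (N : V → Finset V) (hN : ∀ v u, u ∈ N v ↔ 0 < w v u) (hdeg : ∀ v, (N v).card ≤ g)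
    (hw : ∀ v, 1 ≤ ∑ u, w v u) : Heavy w 1 := by
  classical
  have hsum : ∀ v, 1 ≤ ∑ u ∈ N v, w v u := by
    intro v
    refine (hw v).trans (le_of_eq ?_)
    symm
    refine sum_subset (subset_univ _) fun u _ hu => ?_
    rw [hN] at hu
    exact le_antisymm (not_lt.1 hu) (h0 _ _)
  have hne : ∀ v, (N v).Nonempty := by
    intro v
    rw [Finset.nonempty_iff_ne_empty]
    intro h
    have := hsum v
    rw [h, sum_empty] at this
    linarith
  have hex : ∀ v, ∃ u, 0 < w v u ∧ 1 ≤ (g : ℝ) * w v u := by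
    intro v
    obtain ⟨u, hu, hmax⟩ := Finset.exists_max_image (N v) (fun u => w v u) (hne v)
    have hu' := (hN v u).1 hu
    refine ⟨u, hu', ?_⟩
    have h1 : ∑ x ∈ N v, w v x ≤ (N v).card * w v u := by
      rw [← nsmul_eq_mul]
      exact Finset.sum_le_card_nsmul _ _ _ hmax
    have h2 : ((N v).card : ℝ) * w v u ≤ g * w v u :=
      mul_le_mul_of_nonneg_right (by exact_mod_cast hdeg v) hu'.le
    exact (hsum v).trans (h1.trans h2)
  choose F hF1 hF2 using hex
  obtain ⟨m, f, hf, harc, hon⟩ := max_path (fun v u => u = F v) (fun v h => by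
    have := hF1 v
    rw [← h, hl] at this
    exact lt_irrefl _ this)
  obtain ⟨a, k, hm, hcl, ha⟩ := first_nbr (R := fun v u => u = F v) hon ⟨F (f m), rfl⟩
  have harc' : ∀ i, i < m → 0 < w (f i) (f (i + 1)) := fun i hi => by
    rw [harc i hi]
    exact hF1 _
  have hcl' : 0 < w (f m) (f a) := by
    rw [show f a = F (f m) from hcl]
    exact hF1 _
  obtain ⟨h, k1, k2, k3⟩ := fwd w hm hf harc' hcl'
  refine ⟨k, h, k1, k2, ?_⟩
  rw [k3]
  have hgk : (g : ℝ) ≤ k + 2 := by exact_mod_cast hg k h k1 k2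
  have hg0 : (0 : ℝ) < g := by
    rcases Nat.eq_zero_or_pos g with h | h
    · exfalso
      have := hF2 (f m)
      rw [h, Nat.cast_zero, zero_mul] at this
      linarith
    · exact_mod_cast h
  have b1 : ∀ v, 1 / (g : ℝ) ≤ w v (F v) := fun v => by
    rw [div_le_iff₀ hg0, mul_comm]
    exact hF2 v
  have b2 : ((k : ℝ) + 1) * (1 / g) ≤ ∑ y ∈ range (k + 1), w (f (a + y)) (f (a + y + 1)) := by
    have h5 : ∑ _y ∈ range (k + 1), (1 / (g : ℝ)) ≤
        ∑ y ∈ range (k + 1), w (f (a + y)) (f (a + y + 1)) := by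
      refine sum_le_sum fun y hy => ?_
      have := mem_range.1 hy
      rw [harc (a + y) (by omega)]
      exact b1 _
    rw [sum_const, card_range, nsmul_eq_mul] at h5
    push_cast at h5
    exact h5
  have b3 : 1 / (g : ℝ) ≤ w (f m) (f a) := by
    rw [show f a = F (f m) from hcl]
    exact b1 _
  have b4 : 1 ≤ ((k : ℝ) + 2) * (1 / g) := by
    rw [mul_one_div, le_div_iff₀ hg0, one_mul]
    exact hgk
  linarith

/-- in-degree at most the girth -/
theorem girth_in (w : V → V → ℝ) (h0 : ∀ u v, 0 ≤ w u v) (hl : ∀ v, w v v = 0) (g : ℕ)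
    (hg : ∀ (k : ℕ) (f : Fin (k + 2) → V), Function.Injective f →
      (∀ i, 0 < w (f i) (f (finRotate (k + 2) i))) → g ≤ k + 2)
    (N : V → Finset V) (hN : ∀ v u, u ∈ N v ↔ 0 < w u v) (hdeg : ∀ v, (N v).card ≤ g)
    (hw : ∀ v, 1 ≤ ∑ u, w u v) : Heavy w 1 := by
  classical
  have hsum : ∀ v, 1 ≤ ∑ u ∈ N v, w u v := by
    intro v
    refine (hw v).trans (le_of_eq ?_)
    symm
    refine sum_subset (subset_univ _) fun u _ hu => ?_
    rw [hN] at hu
    exact le_antisymm (not_lt.1 hu) (h0 _ _)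
  have hne : ∀ v, (N v).Nonempty := by
    intro v
    rw [Finset.nonempty_iff_ne_empty]
    intro h
    have := hsum v
    rw [h, sum_empty] at this
    linarith
  have hex : ∀ v, ∃ u, 0 < w u v ∧ 1 ≤ (g : ℝ) * w u v := by
    intro v
    obtain ⟨u, hu, hmax⟩ := Finset.exists_max_image (N v) (fun u => w u v) (hne v)
    have hu' := (hN v u).1 hu
    refine ⟨u, hu', ?_⟩
    have h1 : ∑ x ∈ N v, w x v ≤ (N v).card * w u v := by
      rw [← nsmul_eq_mul]
      exact Finset.sum_le_card_nsmul _ _ _ hmax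
    have h2 : ((N v).card : ℝ) * w u v ≤ g * w u v :=
      mul_le_mul_of_nonneg_right (by exact_mod_cast hdeg v) hu'.le
    exact (hsum v).trans (h1.trans h2)
  choose F hF1 hF2 using hex
  obtain ⟨m, f, hf, harc, hon⟩ := max_path (fun v u => u = F v) (fun v h => by
    have := hF1 v
    rw [← h, hl] at this
    exact lt_irrefl _ this)
  obtain ⟨a, k, hm, hcl, ha⟩ := first_nbr (R := fun v u => u = F v) hon ⟨F (f m), rfl⟩
  have harc' : ∀ i, i < m → 0 < w (f (i + 1)) (f i) := fun i hi => by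
    rw [harc i hi]
    exact hF1 _
  have hcl' : 0 < w (f a) (f m) := by
    rw [show f a = F (f m) from hcl]
    exact hF1 _
  obtain ⟨h, k1, k2, k3⟩ := bwd w hm hf harc' hcl'
  refine ⟨k, h, k1, k2, ?_⟩
  rw [k3]
  have hgk : (g : ℝ) ≤ k + 2 := by exact_mod_cast hg k h k1 k2
  have hg0 : (0 : ℝ) < g := by
    rcases Nat.eq_zero_or_pos g with h | h
    · exfalso
      have := hF2 (f m)
      rw [h, Nat.cast_zero, zero_mul] at this
      linarith
    · exact_mod_cast h
  have b1 : ∀ v, 1 / (g : ℝ) ≤ w (F v) v := fun v => by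
    rw [div_le_iff₀ hg0, mul_comm]
    exact hF2 v
  have b2 : ((k : ℝ) + 1) * (1 / g) ≤ ∑ y ∈ range (k + 1), w (f (a + y + 1)) (f (a + y)) := by
    have h5 : ∑ _y ∈ range (k + 1), (1 / (g : ℝ)) ≤
        ∑ y ∈ range (k + 1), w (f (a + y + 1)) (f (a + y)) := by
      refine sum_le_sum fun y hy => ?_
      have := mem_range.1 hy
      rw [harc (a + y) (by omega)]
      exact b1 _
    rw [sum_const, card_range, nsmul_eq_mul] at h5
    push_cast at h5
    exact h5
  have b3 : 1 / (g : ℝ) ≤ w (f a) (f m) := by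
    rw [show f a = F (f m) from hcl]
    exact b1 _
  have b4 : 1 ≤ ((k : ℝ) + 2) * (1 / g) := by
    rw [mul_one_div, le_div_iff₀ hg0, one_mul]
    exact hgk
  linarith

end Pool.Agent.NH87.HC
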