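import Mathlib

/-!
# Heavy directed cycles
-/

set_option autoImplicit false
set_option linter.unusedSectionVars false

open Finset

namespace Pool.Agent.NH87.HC

variable {V : Type}

/-- The weight function `w` has a directed cycle (with at least two vertices) of weight at least `c`. -/
def Heavy (w : V → V → ℝ) (c : ℝ) : Prop :=
  ∃ (k : ℕ) (f : Fin (k + 2) → V), Function.Injective f ∧
    (∀ i, 0 < w (f i) (f (finRotate (k + 2) i))) ∧
    c ≤ ∑ i, w (f i) (f (finRotate (k + 2) i))

theorem rot_castSucc (k : ℕ) (i : Fin (k + 1)) : finRotate (k + 2) i.castSucc = i.succ := by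
  have h := finRotate_of_lt (k := (i : ℕ)) (n := k + 1) i.2
  have e : i.castSucc = ⟨(i : ℕ), by omega⟩ := rfl
  rw [e]
  exact h

/-- a cycle from a sequence of vertices -/
theorem mk_cycle (w : V → V → ℝ) (g : ℕ → V) (k : ℕ)
    (hinj : ∀ i j, i ≤ k + 1 → j ≤ k + 1 → g i = g j → i = j)
    (harc : ∀ i, i ≤ k → 0 < w (g i) (g (i + 1))) (hcl : 0 < w (g (k + 1)) (g 0)) :
    ∃ f : Fin (k + 2) → V, Function.Injective f ∧
      (∀ i, 0 < w (f i) (f (finRotate (k + 2) i))) ∧
      ∑ i, w (f i) (f (finRotate (k + 2) i)) =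
        ∑ i ∈ range (k + 1), w (g i) (g (i + 1)) + w (g (k + 1)) (g 0) := by
  refine ⟨fun i => g i, ?_, ?_, ?_⟩
  · intro i j hij
    exact Fin.ext (hinj i j (by omega) (by omega) hij)
  · intro i
    induction i using Fin.lastCases with
    | last =>
      rw [finRotate_last]
      exact hcl
    | cast i =>
      rw [rot_castSucc]
      exact harc i (by omega)
  · rw [Fin.sum_univ_castSucc, finRotate_last, Finset.sum_range]
    congr 1
    refine Finset.sum_congr rfl fun i _ => ?_
    rw [rot_castSucc]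
    rfl

/-- forward paths -/
theorem fwd (w : V → V → ℝ) {m a k : ℕ} {f : ℕ → V} (hm : m = a + (k + 1))
    (hf : ∀ i j, i ≤ m → j ≤ m → f i = f j → i = j)
    (harc : ∀ i, i < m → 0 < w (f i) (f (i + 1))) (hcl : 0 < w (f m) (f a)) :
    ∃ h : Fin (k + 2) → V, Function.Injective h ∧
      (∀ i, 0 < w (h i) (h (finRotate (k + 2) i))) ∧
      ∑ i, w (h i) (h (finRotate (k + 2) i)) =
        ∑ y ∈ range (k + 1), w (f (a + y)) (f (a + y + 1)) + w (f m) (f a) := by
  subst hm
  obtain ⟨h, h1, h2, h3⟩ := mk_cycle w (fun i => f (a + i)) k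
    (fun i j hi hj hij => by
      have := hf (a + i) (a + j) (by omega) (by omega) hij
      omega)
    (fun i hi => harc (a + i) (by omega)) hcl
  exact ⟨h, h1, h2, h3⟩

/-- backward paths -/
theorem bwd (w : V → V → ℝ) {m a k : ℕ} {f : ℕ → V} (hm : m = a + (k + 1))
    (hf : ∀ i j, i ≤ m → j ≤ m → f i = f j → i = j)
    (harc : ∀ i, i < m → 0 < w (f (i + 1)) (f i)) (hcl : 0 < w (f a) (f m)) :
    ∃ h : Fin (k + 2) → V, Function.Injective h ∧
      (∀ i, 0 < w (h i) (h (finRotate (k + 2) i))) ∧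
      ∑ i, w (h i) (h (finRotate (k + 2) i)) =
        ∑ y ∈ range (k + 1), w (f (a + y + 1)) (f (a + y)) + w (f a) (f m) := by
  subst hm
  obtain ⟨h, h1, h2, h3⟩ := mk_cycle w (fun i => f (a + (k + 1) - i)) k
    (fun i j hi hj hij => by
      have := hf (a + (k + 1) - i) (a + (k + 1) - j) (by omega) (by omega) hij
      omega)
    (fun i hi => by
      have h4 := harc (a + (k + 1) - (i + 1)) (by omega)
      have h5 : a + (k + 1) - (i + 1) + 1 = a + (k + 1) - i := by omega
      rw [h5] at h4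
      exact h4)
    (by
      have h5 : a + (k + 1) - (k + 1) = a := by omega
      show 0 < w (f (a + (k + 1) - (k + 1))) (f (a + (k + 1) - 0))
      rw [h5]
      exact hcl)
  refine ⟨h, h1, h2, ?_⟩
  rw [h3]
  congr 1
  · rw [← Finset.sum_range_reflect]
    refine Finset.sum_congr rfl fun i hi => ?_
    rw [mem_range] at hi
    have h5 : a + (k + 1) - (k + 1 - 1 - i) = a + i + 1 := by omega
    have h6 : a + (k + 1) - (k + 1 - 1 - i + 1) = a + i := by omega
    show w (f (a + (k + 1) - (k + 1 - 1 - i))) (f (a + (k + 1) - (k + 1 - 1 - i + 1))) = _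
    rw [h5, h6]
  · show w (f (a + (k + 1) - (k + 1))) (f (a + (k + 1) - 0)) = _
    have h5 : a + (k + 1) - (k + 1) = a := by omega
    rw [h5]
    rfl

section

variable [Fintype V] [Nonempty V]

/-- A path that cannot be extended at its end. -/
theorem max_path (R : V → V → Prop) (hirr : ∀ v, ¬ R v v) :
    ∃ (m : ℕ) (f : ℕ → V), (∀ i j, i ≤ m → j ≤ m → f i = f j → i = j) ∧
      (∀ i, i < m → R (f i) (f (i + 1))) ∧ ∀ u, R (f m) u → ∃ i, i < m ∧ f i = u := by
  classical
  let P : ℕ → Prop := fun m => ∃ f : ℕ → V, (∀ i j, i ≤ m → j ≤ m → f i = f j → i = j) ∧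
    ∀ i, i < m → R (f i) (f (i + 1))
  have hP0 : P 0 := by
    refine ⟨fun _ => Classical.arbitrary V, fun i j hi hj _ => by omega, fun i hi => by omega⟩
  have hPb : ∀ m, P m → m ≤ Fintype.card V := by
    rintro m ⟨f, hf, _⟩
    have : Function.Injective (fun i : Fin (m + 1) => f i) := by
      intro i j hij
      exact Fin.ext (hf i j (by omega) (by omega) hij)
    have := Fintype.card_le_of_injective _ this
    rw [Fintype.card_fin] at this
    omega
  obtain ⟨m, hm, hmax⟩ : ∃ m, P m ∧ ∀ m', P m' → m' ≤ m := by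
    refine ⟨Nat.findGreatest P (Fintype.card V), ?_, ?_⟩
    · exact Nat.findGreatest_spec (P := P) (Nat.zero_le _) hP0
    · intro m' hm'
      exact Nat.le_findGreatest (hPb m' hm') hm'
  obtain ⟨f, hf, hfR⟩ := hm
  refine ⟨m, f, hf, hfR, ?_⟩
  intro u hu
  by_contra hcon
  push Not at hcon
  have hne : ∀ i, i ≤ m → f i ≠ u := by
    intro i hi h
    rcases Nat.lt_or_eq_of_le hi with h1 | h1
    · exact hcon i h1 h
    · rw [h1] at h; rw [← h] at hu; exact hirr _ hu
  have : P (m + 1) := by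
    refine ⟨fun i => if i = m + 1 then u else f i, ?_, ?_⟩
    · intro i j hi hj hij
      by_cases h1 : i = m + 1 <;> by_cases h2 : j = m + 1
      · omega
      · simp only [h1, h2, if_true, if_false] at hij
        exact absurd hij.symm (hne j (by omega))
      · simp only [h1, h2, if_true, if_false] at hij
        exact absurd hij (hne i (by omega))
      · simp only [h1, h2, if_false] at hij
        exact hf i j (by omega) (by omega) hij
    · intro i hi
      have h1 : i ≠ m + 1 := by omega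
      by_cases h2 : i + 1 = m + 1
      · have : i = m := by omega
        simp only [h1, h2, if_true, if_false]
        rw [this]; exact hu
      · simp only [h1, h2, if_false]
        exact hfR i (by omega)
  have := hmax _ this
  omega

/-- the first neighbour of the end -/
theorem first_nbr {R : V → V → Prop} {m : ℕ} {f : ℕ → V}
    (hon : ∀ u, R (f m) u → ∃ i, i < m ∧ f i = u) (hex : ∃ u, R (f m) u) :
    ∃ a k, m = a + (k + 1) ∧ R (f m) (f a) ∧ ∀ i, i < m → R (f m) (f i) → a ≤ i := by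
  classical
  have hex' : ∃ i, R (f m) (f i) ∧ i < m := by
    obtain ⟨u, hu⟩ := hex
    obtain ⟨i, hi, rfl⟩ := hon u hu
    exact ⟨i, hu, hi⟩
  refine ⟨Nat.find hex', m - Nat.find hex' - 1, ?_, (Nat.find_spec hex').1, fun i hi h =>
    Nat.find_min' hex' ⟨h, hi⟩⟩
  have := (Nat.find_spec hex').2
  omega

/-- sums over the neighbours of the end -/
theorem sum_nbr {R : V → V → Prop} {m a : ℕ} {f : ℕ → V}
    (hf : ∀ i j, i ≤ m → j ≤ m → f i = f j → i = j)
    (hon : ∀ u, R (f m) u → ∃ i, i < m ∧ f i = u)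
    (ha : ∀ i, i < m → R (f m) (f i) → a ≤ i) (N : Finset V) (hN : ∀ u, u ∈ N ↔ R (f m) u)
    (F : V → ℝ) (H : ℕ → ℝ)
    (hG : ∀ i, a ≤ i → i < m → R (f m) (f i) → F (f i) ≤ H i) (hH : ∀ i, a ≤ i → i < m → 0 ≤ H i) :
    ∑ u ∈ N, F u ≤ ∑ i ∈ Ico a m, H i := by
  classical
  have h1 : N = ((Ico a m).filter fun i => R (f m) (f i)).image f := by
    ext u
    rw [hN, mem_image]
    constructor
    · intro hu
      obtain ⟨i, hi, rfl⟩ := hon u hu
      exact ⟨i, mem_filter.2 ⟨mem_Ico.2 ⟨ha i hi hu, hi⟩, hu⟩, rfl⟩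
    · rintro ⟨i, hi, rfl⟩
      exact (mem_filter.1 hi).2
  rw [h1, sum_image]
  · refine (sum_le_sum fun i hi => ?_).trans (sum_le_sum_of_subset_of_nonneg (filter_subset _ _)
      fun i hi _ => hH i (mem_Ico.1 hi).1 (mem_Ico.1 hi).2)
    rw [mem_filter, mem_Ico] at hi
    exact hG i hi.1.1 hi.1.2 hi.2
  · intro i hi j hj hij
    rw [mem_coe, mem_filter, mem_Ico] at hi hj
    exact hf i j (by omega) (by omega) hij

/-- The heaviest path. -/
theorem heaviest_path (R : V → V → Prop) (s : V → V → ℝ) :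
    ∃ (m : ℕ) (f : ℕ → V), (∀ i j, i ≤ m → j ≤ m → f i = f j → i = j) ∧
      (∀ i, i < m → R (f i) (f (i + 1))) ∧
      ∀ (m' : ℕ) (f' : ℕ → V), (∀ i j, i ≤ m' → j ≤ m' → f' i = f' j → i = j) →
        (∀ i, i < m' → R (f' i) (f' (i + 1))) →
        ∑ i ∈ range m', s (f' i) (f' (i + 1)) ≤ ∑ i ∈ range m, s (f i) (f (i + 1)) := by
  classical
  let Q : ℕ → (ℕ → V) → Prop := fun m f => (∀ i j, i ≤ m → j ≤ m → f i = f j → i = j) ∧
    ∀ i, i < m → R (f i) (f (i + 1))
  have hQb : ∀ m f, Q m f → m ≤ Fintype.card V := by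
    rintro m f ⟨hf, _⟩
    have : Function.Injective (fun i : Fin (m + 1) => f i) := by
      intro i j hij
      exact Fin.ext (hf i j (by omega) (by omega) hij)
    have := Fintype.card_le_of_injective _ this
    rw [Fintype.card_fin] at this
    omega
  let N := Fintype.card V
  let e : (Fin (N + 1) → V) → ℕ → V := fun g i => g ⟨min i N, by omega⟩
  obtain ⟨⟨m, g⟩, hmem, hmax⟩ := Finset.exists_max_image
    (univ.filter fun t : Fin (N + 1) × (Fin (N + 1) → V) => Q t.1 (e t.2))
    (fun t => ∑ i ∈ range t.1, s (e t.2 i) (e t.2 (i + 1)))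
    ⟨(0, fun _ => Classical.arbitrary V), mem_filter.2 ⟨mem_univ _,
      ⟨fun i j hi hj _ => by
        have h1 : ((0 : Fin (N + 1)) : ℕ) = 0 := rfl
        have hi' : i ≤ ((0 : Fin (N + 1)) : ℕ) := hi
        have hj' : j ≤ ((0 : Fin (N + 1)) : ℕ) := hj
        omega, fun i hi => by
        have h1 : ((0 : Fin (N + 1)) : ℕ) = 0 := rfl
        have hi' : i < ((0 : Fin (N + 1)) : ℕ) := hi
        omega⟩⟩⟩
  have hQ := (mem_filter.1 hmem).2
  refine ⟨m, e g, hQ.1, hQ.2, ?_⟩
  intro m' f' h1 h2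
  have hm' : m' ≤ N := hQb m' f' ⟨h1, h2⟩
  have he : ∀ i, i ≤ N → e (fun i => f' i) i = f' i := by
    intro i hi
    show f' (min i N) = f' i
    rw [min_eq_left hi]
  have h3 := hmax (⟨m', by omega⟩, fun i => f' i) (mem_filter.2 ⟨mem_univ _,
    ⟨fun i j hi hj hij => by
      have hi' : i ≤ m' := hi
      have hj' : j ≤ m' := hj
      have hij' : e (fun i => f' i) i = e (fun i => f' i) j := hij
      rw [he i (by omega), he j (by omega)] at hij'
      exact h1 i j hi' hj' hij', fun i hi => by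
      have hi' : i < m' := hi
      show R (e (fun i => f' i) i) (e (fun i => f' i) (i + 1))
      rw [he i (by omega), he (i + 1) (by omega)]
      exact h2 i hi'⟩⟩)
  refine le_trans (le_of_eq ?_) h3
  refine Finset.sum_congr rfl fun i hi => ?_
  have hi' : i < m' := mem_range.1 hi
  show _ = s (e (fun i => f' i) i) (e (fun i => f' i) (i + 1))
  rw [he i (by omega), he (i + 1) (by omega)]

end

end Pool.Agent.NH87.HC
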